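import Pool.Agent.H52.SF.CRT
import Pool.Agent.H68.SF.HMK
import Pool.Agent.H27.LV.Curve
import Pool.Agent.H27.LV.LOC2

/-!
# MP_70ba79_ag, THEOREM S (surfaces), chapter 11: centres of places
-/

set_option autoImplicit false

namespace Pool.Agent.H52.SF

open MvPolynomial SC
open Pool.Agent.H84.SF
open Pool.Agent.H27.LV (ge deg poleOrder canDeg ge_zero ge_one ge_const ge_sum const_eq_zero
  exists_pole2 rat)
open Pool.Agent.H3.SF (Itg Bb BB Hm eu grd hes Sfc Crd Cnn Crf Prm nv)
open Pool.Agent.H68.SF (hmk_scale hmk_near)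

section Ge

variable {k K σ : Type} [Field k] [Field K] [Algebra k K]

theorem ge_aeval0 (v : DV k K) (y : σ → K) (hy : ∀ i, ge v 0 (y i)) (f : MvPolynomial σ k) :
    ge v 0 (aeval y f) := by
  induction f using MvPolynomial.induction_on with
  | C a =>
    rw [algHom_C]
    exact ge_const v a
  | add p q hp hq =>
    rw [map_add]
    exact hp.add hq
  | mul_X p i hp =>
    rw [map_mul, aeval_X]
    have := hp.mul (hy i)
    rwa [add_zero] at this

theorem ge_powN (v : DV k K) {t : ℤ} {w : K} (h : ge v t w) (n : ℕ) : ge v (n * t) (w ^ n) := by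
  induction n with
  | zero =>
    rw [pow_zero, Nat.cast_zero, zero_mul]
    exact ge_one v
  | succ n ih =>
    rw [pow_succ]
    have h1 := ih.mul h
    have h2 : (n : ℤ) * t + t = ((n + 1 : ℕ) : ℤ) * t := by push_cast; ring
    rwa [h2] at h1

/-- multiplication by a power of the uniformiser -/
theorem ge_unif_pow (v : DV k K) (n : ℕ) {t : ℤ} {w : K} (h : ge v t w) :
    ge v (t + n) (v.unif ^ n * w) := by
  have h1 : ge v n (v.unif ^ n) := Or.inr (by rw [v.ord_unif_pow])
  have := h1.mul h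
  rwa [add_comm] at this

theorem ge_of_unif_pow (v : DV k K) (n : ℕ) {t : ℤ} {w : K} (h : ge v t (v.unif ^ n * w)) :
    ge v (t - n) w := by
  have h0 : v.unif ^ n ≠ 0 := pow_ne_zero _ v.unif_ne_zero
  have h1 : ge v (-(n : ℤ)) (v.unif ^ n)⁻¹ := Or.inr (by rw [v.ord_inv, v.ord_unif_pow])
  have h2 := h1.mul h
  rw [inv_mul_cancel_left₀ h0] at h2
  have h3 : -(n : ℤ) + t = t - n := by ring
  rwa [h3] at h2

/-- values of forms -/
theorem ge_form (v : DV k K) (P : ℕ) (x : σ → K) (hx : ∀ i, ge v (-(P : ℤ)) (x i))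
    {f : MvPolynomial σ k} {n : ℕ} (hf : f.IsHomogeneous n) :
    ge v (-((n * P : ℕ) : ℤ)) (aeval x f) := by
  have h1 : ∀ i, ge v 0 (v.unif ^ P * x i) := by
    intro i
    have := ge_unif_pow v P (hx i)
    rwa [neg_add_cancel] at this
  have h2 := ge_aeval0 v (fun i => v.unif ^ P * x i) h1 f
  rw [hmk_scale x (v.unif ^ P) hf, ← pow_mul] at h2
  have h3 := ge_of_unif_pow v (P * n) h2
  rw [zero_sub, mul_comm P n] at h3
  exact h3

/-- an element with a homogeneous integral equation -/
theorem ge_integral (v : DV k K) (P e N : ℕ) (c : Fin N → K) (w : K)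
    (hc : ∀ i : Fin N, ge v (-(((N - (i : ℕ)) * e * P : ℕ) : ℤ)) (c i))
    (h : w ^ N + ∑ i, c i * w ^ (i : ℕ) = 0) : ge v (-((e : ℤ) * P)) w := by
  by_contra hcon
  have hw0 : w ≠ 0 := fun h0 => hcon (Or.inl h0)
  have hlt : v.ord w < -((e : ℤ) * P) := by
    by_contra h1
    exact hcon (Or.inr (not_lt.1 h1))
  have hwN : v.ord (w ^ N) = N * v.ord w := v.ord_pow w N
  have hge : ge v ((N : ℤ) * v.ord w + 1) (w ^ N) := by
    have h1 : w ^ N = -∑ i, c i * w ^ (i : ℕ) := by
      rw [← add_eq_zero_iff_eq_neg]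
      exact h
    rw [h1]
    refine (ge_sum v _ _ _ fun i _ => ?_).neg
    have h2 : ge v (v.ord w) w := Or.inr le_rfl
    refine ((hc i).mul (ge_powN v h2 i)).mono ?_
    obtain ⟨j, hj⟩ : ∃ j : ℕ, N = i + 1 + j := Nat.exists_eq_add_of_le (Nat.succ_le_of_lt i.2)
    have h3 : N - (i : ℕ) = 1 + j := by omega
    rw [h3]
    have h4 : (N : ℤ) = (i : ℕ) + 1 + j := by exact_mod_cast hj
    rw [h4]
    push_cast
    have h5 : v.ord w + 1 ≤ -((e : ℤ) * P) := by omega
    nlinarith [mul_nonneg (Int.natCast_nonneg j)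
      (sub_nonneg.2 h5)]
  rcases hge with h1 | h1
  · exact pow_ne_zero _ hw0 h1
  · rw [hwN] at h1
    omega

end Ge

/-- CNY: centres of places, orders of homogeneous integral elements -/
theorem pf_CNY (hCHM : T_CHM) (hHIE : T_HIE) : T_CNY := by
  intro k F σ K _ _ _ _ _ _ _ _ htr X u dd J j0 hY φ x hφ hx1 v
  haveI : CharZero F := charZero_of_injective_algebraMap (algebraMap k F).injective
  -- the elements `u`
  have hum : ∀ i, u i ∈ Bb k u := by
    intro i
    have h := ((aeval u : MvPolynomial (Fin 3) k →ₐ[k] F) :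
      MvPolynomial (Fin 3) k →+* F).isIntegralElem_map (x := MvPolynomial.X i)
    have e : ((aeval u : MvPolynomial (Fin 3) k →ₐ[k] F) :
      MvPolynomial (Fin 3) k →+* F) (MvPolynomial.X i) = u i := aeval_X u i
    rw [e] at h
    exact h
  obtain ⟨uB, huB⟩ : ∃ uB : Fin 3 → Bb k u, ∀ i, (uB i : F) = u i := ⟨fun i => ⟨u i, hum i⟩, fun _ => rfl⟩
  have hφu : ∀ i, φ (uB i) = x i := fun i => hφ i _ (huB i)
  have huBv : ∀ f : MvPolynomial (Fin 3) k, ((aeval uB f : Bb k u) : F) = aeval u f := by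
    intro f
    have h1 : ((Bb k u).val.comp (aeval uB)) = (aeval u : MvPolynomial (Fin 3) k →ₐ[k] F) := by
      apply MvPolynomial.algHom_ext
      intro i
      simp [huB i]
    exact DFunLike.congr_fun h1 f
  have hφuf : ∀ f : MvPolynomial (Fin 3) k, φ (aeval uB f) = aeval x f := by
    intro f
    have h1 : φ.comp (aeval uB) = (aeval x : MvPolynomial (Fin 3) k →ₐ[k] K) := by
      apply MvPolynomial.algHom_ext
      intro i
      simp [hφu i]
    exact DFunLike.congr_fun h1 f
  -- the elements `X`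
  obtain ⟨XB, hXB⟩ : ∃ XB : σ → Bb k u, ∀ i, (XB i : F) = X i :=
    ⟨fun i => ⟨X i, hY.Xint i⟩, fun _ => rfl⟩
  obtain ⟨z, hz⟩ : ∃ z : σ → K, ∀ i, φ (XB i) = z i := ⟨fun i => φ (XB i), fun _ => rfl⟩
  have hXBv : ∀ f : MvPolynomial σ k, ((aeval XB f : Bb k u) : F) = aeval X f := by
    intro f
    have h1 : ((Bb k u).val.comp (aeval XB)) = (aeval X : MvPolynomial σ k →ₐ[k] F) := by
      apply MvPolynomial.algHom_ext
      intro i
      simp [hXB i]
    exact DFunLike.congr_fun h1 f
  have hφXf : ∀ f : MvPolynomial σ k, φ (aeval XB f) = aeval z f := by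
    intro f
    have h1 : φ.comp (aeval XB) = (aeval z : MvPolynomial σ k →ₐ[k] K) := by
      apply MvPolynomial.algHom_ext
      intro i
      simp [hz i]
    exact DFunLike.congr_fun h1 f
  have hEX : ∀ s, Hm k (eu u dd) 1 (X s) := by
    intro s
    unfold Hm
    rw [hY.Xeu s]
    push_cast
    ring
  obtain ⟨P, hP⟩ : ∃ P : ℕ, P = poleOrder v x := ⟨_, rfl⟩
  have hxP : ∀ i, ge v (-(P : ℤ)) (x i) := by
    intro i
    have h3 : (-(v.ord (x i))).toNat ≤ poleOrder v x :=
      Finset.le_sup (f := fun β => (-(v.ord (x β))).toNat) (Finset.mem_univ i)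
    right
    rw [hP]
    omega
  have part1 : ∀ (e : ℕ) (b : Bb k u), Hm k (eu u dd) e (b : F) →
      ge v (-((e : ℤ) * poleOrder v x)) (φ b) := by
    intro e b hb
    obtain ⟨N, c, hc, heq⟩ := hHIE k F u dd hY.ddu (b : F) e b.2 hb
    have heqB : b ^ N + ∑ i, aeval uB (c i) * b ^ (i : ℕ) = 0 := by
      apply Subtype.ext
      push_cast
      simp only [huBv]
      exact heq
    have heqK : (φ b) ^ N + ∑ i, aeval x (c i) * (φ b) ^ (i : ℕ) = 0 := by
      have h1 := congrArg φ heqB
      rw [map_zero, map_add, map_sum, map_pow] at h1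
      rw [← h1]
      congr 1
      refine Finset.sum_congr rfl fun i _ => ?_
      rw [map_mul, map_pow, hφuf]
    rw [← hP]
    refine ge_integral v P e N (fun i => aeval x (c i)) (φ b) (fun i => ?_) heqK
    exact ge_form v P x hxP (hc i)
  refine ⟨part1, ?_⟩
  obtain ⟨c, hcdef⟩ : ∃ c : K, c = v.unif ^ P := ⟨_, rfl⟩
  have hc0 : c ≠ 0 := by
    rw [hcdef]
    exact pow_ne_zero _ v.unif_ne_zero
  have hcord : v.ord c = P := by rw [hcdef, v.ord_unif_pow]
  have hzge : ∀ i, ge v 0 (c * z i) := by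
    intro i
    have h1 : ge v (-(((1 : ℕ) : ℤ) * poleOrder v x)) (φ (XB i)) := by
      apply part1 1
      rw [hXB i]
      exact_mod_cast hEX i
    rw [hz i, Nat.cast_one, one_mul, ← hP] at h1
    have h2 := ge_unif_pow v P h1
    rw [neg_add_cancel, ← hcdef] at h2
    exact h2
  have hres : ∀ i, ∃ a : k, ge v 1 (c * z i - algebraMap k K a) := by
    intro i
    refine (rat k K htr v).2 _ ?_
    rcases hzge i with h0 | h0
    · rw [h0, v.ord_zero]
    · exact h0
  choose s hs using hres
  have hnear : ∀ f : MvPolynomial σ k,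
      ge v 1 (aeval (fun i => c * z i) f - algebraMap k K (eval s f)) :=
    hmk_near v (fun i => c * z i) s hs
  refine ⟨c, s, hc0, by rw [hcord, hP], ?_, ?_, ?_⟩
  · -- `s ≠ 0`
    intro hs0
    obtain ⟨j, hj⟩ := hx1
    obtain ⟨l, hl0, hl⟩ := exists_pole2 v x ⟨fun i => if i = j then 1 else 0, by
      simp [hj]⟩
    obtain ⟨U, hU1, hU2⟩ := hY.ulin l
    have h1 : aeval z U = x l := by
      rw [← hφXf, ← hφu l]
      congr 1
      apply Subtype.ext
      rw [hXBv, hU2, huB]
    have h2 := hnear U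
    rw [hmk_scale z c hU1, pow_one, h1] at h2
    have h3 : eval s U = 0 := by
      have h4 := hmk_scale (k := k) s (0 : k) hU1
      rw [zero_pow one_ne_zero, zero_mul] at h4
      have h5 : (fun i => (0 : k) * s i) = s := by
        funext i
        rw [hs0, zero_mul]
        rfl
      rw [h5] at h4
      rw [← h4]
      rfl
    rw [h3, map_zero, sub_zero] at h2
    rcases h2 with h2 | h2
    · exact (mul_ne_zero hc0 hl0) h2
    · rw [v.ord_mul _ _ hc0 hl0, hcord, hl, hP] at h2
      omega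
  · -- the cone
    apply hCHM k F σ X u dd J j0 hY s
    intro f hf
    have hcomp : ∀ d, eval s (homogeneousComponent d f) = 0 := by
      intro d
      have h1 : aeval X (homogeneousComponent d f) = 0 := by
        refine (comp_eq hEX f (a := 0) (t := d) ?_ hf).1 d rfl
        exact Pool.Agent.H62.HIL.hm_zero _
      have h2 : aeval z (homogeneousComponent d f) = 0 := by
        rw [← hφXf]
        have h3 : (aeval XB (homogeneousComponent d f) : Bb k u) = 0 := by
          apply Subtype.ext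
          rw [hXBv, h1]
          rfl
        rw [h3, map_zero]
      have h3 := hnear (homogeneousComponent d f)
      rw [hmk_scale z c (homogeneousComponent_isHomogeneous d f), h2, mul_zero, zero_sub] at h3
      have h4 := h3.neg
      rw [neg_neg] at h4
      exact const_eq_zero v one_pos h4
    rw [← sum_homogeneousComponent f, map_sum]
    exact Finset.sum_eq_zero fun d _ => hcomp d
  · intro i b hb
    have h1 : b = XB i := Subtype.ext (hb.trans (hXB i).symm)
    rw [h1, hz i]
    exact hs i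

end Pool.Agent.H52.SF
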