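import Pool.Agent.H84.SF.Geo2
import Pool.Agent.H62.HIL.Dim2

/-!
# MP_70ba79_ag, THEOREM S (surfaces), chapter 11: the certificate with forms
-/

set_option autoImplicit false

namespace Pool.Agent.H52.SF

open MvPolynomial SC
open Pool.Agent.H84.SF
open Pool.Agent.H3.SF (Itg Bb BB Hm eu grd hes Sfc Crd Cnn Crf Prm nv)
open Pool.Agent.H62.HIL (hm_component hm_mul hm_pow hm_aeval)

variable {k F σ : Type} [Field k] [Field F] [Algebra k F]

/-- a homogeneous element of `k[X]` is the value of the component of the same degree, and it
vanishes if the degree is negative -/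
theorem comp_eq [CharZero F] {E : Derivation k F F} {X : σ → F} (hX : ∀ i, Hm k E 1 (X i))
    (f : MvPolynomial σ k) {a : F} {t : ℤ} (ha : Hm k E t a) (h : aeval X f = a) :
    (∀ d : ℕ, t = d → aeval X (homogeneousComponent d f) = a) ∧ (t < 0 → a = 0) := by
  classical
  let S : Finset (Option ℕ) := Finset.insertNone (Finset.range (f.totalDegree + 1))
  let d : Option ℕ → ℤ := fun o => match o with
    | none => t
    | some e => (e : ℤ)
  let z : Option ℕ → F := fun o => match o with
    | none => -a
    | some e => aeval X (homogeneousComponent e f)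
  have hz : ∀ j ∈ S, Hm k E (d j) (z j) := by
    intro j _
    cases j with
    | none => exact Pool.Agent.H62.HIL.hm_neg ha
    | some e => exact hm_aeval hX (homogeneousComponent_isHomogeneous e f)
  have h0 : ∑ j ∈ S, z j = 0 := by
    change ∑ j ∈ Finset.insertNone (Finset.range (f.totalDegree + 1)), z j = 0
    rw [Finset.sum_insertNone]
    change -a + ∑ e ∈ Finset.range (f.totalDegree + 1), aeval X (homogeneousComponent e f) = 0
    rw [← map_sum, sum_homogeneousComponent, h]
    ring
  have hc := hm_component (κ := k) (E := E) S d z hz h0 t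
  rw [Finset.sum_filter] at hc
  have hc' : -a + ∑ e ∈ Finset.range (f.totalDegree + 1),
      (if (e : ℤ) = t then aeval X (homogeneousComponent e f) else 0) = 0 := by
    have hc2 : ∑ j ∈ Finset.insertNone (Finset.range (f.totalDegree + 1)),
        (if d j = t then z j else 0) = 0 := hc
    rw [Finset.sum_insertNone] at hc2
    have e1 : (if d none = t then z none else 0) = -a := if_pos rfl
    rw [e1] at hc2
    exact hc2
  constructor
  · intro d' hd'
    have h1 : ∑ e ∈ Finset.range (f.totalDegree + 1),
        (if (e : ℤ) = t then aeval X (homogeneousComponent e f) else 0) =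
        aeval X (homogeneousComponent d' f) := by
      have h2 : ∀ e ∈ Finset.range (f.totalDegree + 1),
          (if (e : ℤ) = t then aeval X (homogeneousComponent e f) else 0) =
          if d' = e then aeval X (homogeneousComponent e f) else 0 := by
        intro e _
        by_cases he : d' = e
        · rw [if_pos he, if_pos (by rw [hd', he])]
        · rw [if_neg he, if_neg]
          intro hcon
          apply he
          rw [hd'] at hcon
          exact (Int.natCast_inj.1 hcon).symm
      rw [Finset.sum_congr rfl h2, Finset.sum_ite_eq]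
      by_cases hr : d' ∈ Finset.range (f.totalDegree + 1)
      · rw [if_pos hr]
      · rw [if_neg hr, homogeneousComponent_eq_zero, map_zero]
        rw [Finset.mem_range] at hr
        omega
    rw [h1] at hc'
    rw [neg_add_eq_zero] at hc'
    exact hc'.symm
  · intro ht
    have h1 : ∑ e ∈ Finset.range (f.totalDegree + 1),
        (if (e : ℤ) = t then aeval X (homogeneousComponent e f) else 0) = 0 := by
      apply Finset.sum_eq_zero
      intro e _
      rw [if_neg]
      omega
    rw [h1, add_zero, neg_eq_zero] at hc'
    exact hc'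

/-- CRT: the certificate with forms -/
theorem pf_CRT (_hHDD : T_HDD) : T_CRT := by
  intro k F σ _ _ _ _ X u dd J j0 hY m G _hm hG i
  haveI : CharZero F := charZero_of_injective_algebraMap (algebraMap k F).injective
  obtain ⟨c, hc⟩ := hG.cert
  obtain ⟨e, he, hsum⟩ := hc i
  -- homogeneity of `J`
  have hEu : ∀ l, Hm k (eu u dd) 1 (u l) := by
    intro l
    have h1 : (eu u dd) (u l) = u l := by
      have h2 : (eu u dd) (u l) = ∑ j, u j * dd j (u l) := by
        unfold eu
        rw [Fin.sum_univ_three, Fin.sum_univ_three]
        rfl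
      rw [h2]
      simp only [hY.ddu, mul_ite, mul_one, mul_zero, Finset.sum_ite_eq', Finset.mem_univ, if_true]
    unfold Hm
    rw [h1]
    push_cast
    ring
  have hEX : ∀ s, Hm k (eu u dd) 1 (X s) := by
    intro s
    unfold Hm
    rw [hY.Xeu s]
    push_cast
    ring
  have hJ : Hm k (eu u dd) j0 (aeval u J) := hm_aeval hEu hY.Jh
  have hJe : ∀ l, Hm k (eu u dd) ((j0 : ℤ) + ((c : ℤ) + 1 - m)) (aeval u J * e l) := fun l =>
    hm_mul hJ (he l).2
  have hadj : ∀ l, ∃ f : MvPolynomial σ k, aeval X f = aeval u J * e l := by
    intro l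
    have h1 := hY.JI (e l) (he l).1
    rw [Algebra.adjoin_range_eq_range_aeval] at h1
    exact h1
  choose f hf using hadj
  have htot : ∑ l, (aeval u J * e l) * dd l G = aeval u J * u i ^ c := by
    rw [hsum, Finset.mul_sum]
    exact Finset.sum_congr rfl fun l _ => mul_assoc _ _ _
  rcases lt_or_ge ((j0 : ℤ) + ((c : ℤ) + 1 - m)) 0 with hneg | hpos
  · exfalso
    have h0 : ∀ l, aeval u J * e l = 0 := fun l => (comp_eq hEX (f l) (hJe l) (hf l)).2 hneg
    have h1 : aeval u J * u i ^ c = 0 := by
      rw [← htot]
      exact Finset.sum_eq_zero fun l _ => by rw [h0 l, zero_mul]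
    have hJ0 : aeval u J ≠ 0 := by
      intro hcon
      apply hY.J0
      exact (injective_iff_map_eq_zero _).1 hY.ind J hcon
    have hu0 : u i ≠ 0 := hY.ind.ne_zero i
    exact (mul_ne_zero hJ0 (pow_ne_zero _ hu0)) h1
  · obtain ⟨d, hd⟩ := Int.eq_ofNat_of_zero_le hpos
    refine ⟨c, d, fun l => homogeneousComponent d (f l),
      fun l => homogeneousComponent_isHomogeneous d (f l), ?_⟩
    rw [← htot]
    refine Finset.sum_congr rfl fun l _ => ?_
    rw [(comp_eq hEX (f l) (hJe l) (hf l)).1 d hd]

end Pool.Agent.H52.SF
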